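import Pool.Agent.X159.Variety2

/-!
# The functional `η` on discrete varieties

Positive answer to Q1. In a `d`-variety the singular vertices are isolated, so the unit sphere of
every simplex of positive dimension is a sphere and all unit spheres of vertices are
`(d - 1)`-graphs. Counting pairs of nested simplices gives `η(G) = 0` for even `d` and
`η(G) = 4 · #(odd-dimensional simplices)` for odd `d`.
-/

set_option autoImplicit false

namespace Pool.Agent.Results.MP_165839_co.EtaNonneg

open Pool.Agent.X159.Variety

/-- `η(G) = ∑_{k ≥ 1} (-1)^(k+1) (k+1) v_k(G_1)`, where `G_1` is the Barycentric refinement. -/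
noncomputable def eta {V : Type*} [Fintype V] (G : SimpleGraph V) : ℤ :=
  ∑ k ∈ Finset.Icc 1 (Nat.card (Simplex G)),
    (-1) ^ (k + 1) * ((k : ℤ) + 1) * (nu (bary G) (@Finset.univ _ (Fintype.ofFinite _)) k : ℤ)

/-- For every `d ≥ 0` and every `d`-variety `G`: `η(G) = 0` if `d` is even, and `η(G)` is four
times the number of odd-dimensional simplices (complete subgraphs with an even, positive number of
vertices) if `d` is odd. In particular `η(G) ≥ 0`. -/
theorem result {V : Type*} [Fintype V] [DecidableEq V] (G : SimpleGraph V) (d : ℕ)
    (hG : IsVariety G (d + 1) Finset.univ) :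
    0 ≤ eta G ∧ (Even d → eta G = 0) ∧
      (Odd d → eta G = 4 * (Nat.card {s : Simplex G // Even s.1.card} : ℤ)) := by
  classical
  have h0 : eta G = ∑ σ : Simplex G, chi (bary G) (usph (bary G) Finset.univ σ) := by
    rw [eta_fvec (bary G), eta, Nat.card_eq_fintype_card]
    have : (@Finset.univ (Simplex G) (Fintype.ofFinite _)) = Finset.univ := by
      ext x
      simp
    rw [this]
  have h1 : Even d → eta G = 0 := fun hd => by
    rw [h0]
    refine Finset.sum_eq_zero fun σ _ => ?_
    convert curv_even G hd hG σ
  have h2 : Odd d → eta G = 4 * (Nat.card {s : Simplex G // Even s.1.card} : ℤ) := fun hd => by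
    rw [h0, Nat.card_eq_fintype_card, Fintype.card_subtype]
    convert eta_odd G hd hG
  refine ⟨?_, h1, h2⟩
  rcases Nat.even_or_odd d with hd | hd
  · exact (h1 hd).ge
  · rw [h2 hd]
    positivity

end Pool.Agent.Results.MP_165839_co.EtaNonneg
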